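import Pool.Agent.MP_ed9623_an.H77.SpecX

/-! A function whose angular derivative vanishes is invariant under rotations. -/

open MeasureTheory Filter Topology Set
open scoped ContDiff

namespace Pool.Agent.MP_ed9623_an.H77

open H64

namespace RotI

/-- The angular derivative. -/
noncomputable def dth (c : P) (φ : P → ℝ) (x : P) : ℝ :=
  Xc c 0 x * pd (ee 1) φ x - Xc c 1 x * pd (ee 0) φ x

theorem dth_eq (c : P) (φ : P → ℝ) (x : P) :
    dth c φ x = fderiv ℝ φ x (-(x.2 - c.2), x.1 - c.1) := by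
  have e : ((-(x.2 - c.2), x.1 - c.1) : P) = (x.1 - c.1) • ee 1 - (x.2 - c.2) • ee 0 := by
    simp [ee]
  rw [e, map_sub, map_smul, map_smul]
  rfl

theorem test_dth {O : Set P} {φ : P → ℝ} (c : P) (h : Test O φ) : Test O (dth c φ) :=
  ((h.pd _).smul (sm_Xc c 0)).sub ((h.pd _).smul (sm_Xc c 1))

theorem sm_Rt (c τ : P) : ContDiff ℝ ∞ (Rt c τ) :=
  (sm_Th Gam.zero c τ).comp (contDiff_id.sub contDiff_const)

theorem test_rot {c τ : P} {r R : ℝ} {φ : P → ℝ} (hτ : τ.1 ^ 2 + τ.2 ^ 2 = 1)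
    (h : Test (An c r R) φ) : Test (An c r R) fun x => φ (Rt c τ x) := by
  have h1 : tsupport (fun x => φ (Rt c τ x)) ⊆ An c r R := by
    refine (closure_minimal (t := Rt c τ ⁻¹' tsupport φ) (fun x hx => subset_closure hx)
      ((isClosed_tsupport φ).preimage (sm_Rt c τ).continuous)).trans fun x hx => ?_
    have := h.2.2 hx
    simpa only [An, mem_ofPred_eq, qc_Rt hτ] using this
  exact ⟨h.1.comp (sm_Rt c τ), (isCompact_disc c R).of_isClosed_subset (isClosed_tsupport _)
    fun x hx => (h1 hx).2.le, h1⟩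

theorem der {φ : P → ℝ} (h : ContDiff ℝ ∞ φ) (c x : P) (α : ℝ) :
    HasDerivAt (fun β => φ (Rt c (Real.cos β, Real.sin β) x))
      (dth c φ (Rt c (Real.cos α, Real.sin α) x)) α := by
  have h1 := ((((Real.hasDerivAt_cos α).mul_const (x - c).1).const_add c.1).sub
    ((Real.hasDerivAt_sin α).mul_const ((x - c).2 + 0))).prodMk
    ((((Real.hasDerivAt_sin α).mul_const (x - c).1).const_add c.2).add
    ((Real.hasDerivAt_cos α).mul_const ((x - c).2 + 0)))
  have h2 := (sm_diff h (Rt c (Real.cos α, Real.sin α) x)).hasFDerivAt.comp_hasDerivAt α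
    (f := fun β => Rt c (Real.cos β, Real.sin β) x) h1
  rw [dth_eq]
  refine h2.congr_deriv (congrArg _ ?_)
  simp only [Rt, Th, Prod.mk.injEq]
  constructor <;> ring

theorem Rt_one (c x : P) : Rt c (Real.cos 0, Real.sin 0) x = x := by
  simp [Rt, Th]

theorem Rt_comm (c τ σ x : P) : Rt c τ (Rt c σ x) = Rt c σ (Rt c τ x) := by
  simp only [Rt, Th, Prod.mk.injEq, Prod.fst_sub, Prod.snd_sub]
  constructor <;> ring

theorem dth_rot {φ : P → ℝ} (h : ContDiff ℝ ∞ φ) (c τ x : P) :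
    dth c (fun x => φ (Rt c τ x)) x = dth c φ (Rt c τ x) := by
  have h1 := der (h.comp (sm_Rt c τ)) c x 0
  have h2 := der h c (Rt c τ x) 0
  rw [Rt_one] at h1 h2
  simp only [Function.comp_apply, Rt_comm c τ] at h1
  exact h1.unique h2

theorem ang {τ : P} (hτ : τ.1 ^ 2 + τ.2 ^ 2 = 1) : ∃ α, τ = (Real.cos α, Real.sin α) := by
  have h1 : ‖(⟨τ.1, τ.2⟩ : ℂ)‖ = 1 := by
    rw [Complex.norm_eq_sqrt_sq_add_sq, hτ, Real.sqrt_one]
  have h0 : (⟨τ.1, τ.2⟩ : ℂ) ≠ 0 := fun h => by simp [h] at h1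
  exact ⟨Complex.arg ⟨τ.1, τ.2⟩, by rw [Complex.cos_arg h0, Complex.sin_arg, h1]; simp⟩

end RotI

open RotI in
theorem rowRotI : OfRotI := by
  intro c r R m hm H τ hτ φ hφ
  refine ⟨test_rot hτ hφ, ?_⟩
  obtain ⟨α, rfl⟩ := ang hτ
  obtain ⟨C, -, hC⟩ := (test_dth c hφ).bd
  obtain ⟨C', -, hC'⟩ := hφ.bd
  have d : ∀ β, HasDerivAt (fun β => ∫ x, m x * φ (Rt c (Real.cos β, Real.sin β) x)) 0 β := by
    intro β
    have h1 := (hasDerivAt_integral_of_dominated_loc_of_deriv_le (μ := volume) (x₀ := β)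
      (F := fun β x => m x * φ (Rt c (Real.cos β, Real.sin β) x))
      (F' := fun β x => m x * dth c φ (Rt c (Real.cos β, Real.sin β) x))
      (bound := fun x => ‖m x‖ * C) univ_mem
      (Eventually.of_forall fun γ => hm.1.mul
        (hφ.ct.comp (sm_Rt c _).continuous).aestronglyMeasurable)
      (hm.mul_bdd (c := C') (hφ.ct.comp (sm_Rt c _).continuous).aestronglyMeasurable
        (Eventually.of_forall fun x => hC' _))
      (hm.1.mul ((test_dth c hφ).ct.comp (sm_Rt c _).continuous).aestronglyMeasurable)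
      (Eventually.of_forall fun x γ _ => by
        rw [norm_mul]
        exact mul_le_mul_of_nonneg_left (hC _) (norm_nonneg _))
      (hm.norm.mul_const C)
      (Eventually.of_forall fun x γ _ => (der hφ.1 c x γ).const_mul (m x))).2
    have h2 := H _ (test_rot (τ := (Real.cos β, Real.sin β)) (Real.cos_sq_add_sin_sq β) hφ)
    simp only [← dth_rot hφ.1] at h1
    exact h1.congr_deriv h2
  have := is_const_of_deriv_eq_zero (fun β => (d β).differentiableAt) (fun β => (d β).deriv) α 0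
  simpa only [Rt_one] using this

end Pool.Agent.MP_ed9623_an.H77
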