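import Pool.Agent.MP_ed9623_an.H77.SpecW

/-! Pointwise bounds near the boundary line. -/

open MeasureTheory Filter Topology Set
open scoped ContDiff

namespace Pool.Agent.MP_ed9623_an.H77

open H64

namespace Cf1

theorem small {h : ℝ → ℝ} (hh : Integrable h) {δ : ℝ} (hδ : 0 < δ) :
    ∀ᶠ t in 𝓝 (0 : ℝ), ∫ s in Ioo 0 t, h s ≤ δ := by
  refine (hh.tendsto_setIntegral_nhds_zero (s := fun t => Ioo 0 t) ?_).eventually
    (eventually_le_nhds hδ)
  have : Tendsto (fun t : ℝ => ENNReal.ofReal t) (𝓝 0) (𝓝 (ENNReal.ofReal 0)) :=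
    ENNReal.continuous_ofReal.tendsto 0
  simpa [Function.comp_def] using this

theorem ae_snd {p : ℝ → Prop} (h : ∀ᵐ s, p s) : ∀ᵐ z : P, p z.2 :=
  (Measure.quasiMeasurePreserving_snd (μ := (volume : Measure ℝ))).ae h

theorem ae_line {p : P → Prop} (h : ∀ᵐ z : P, p z) : ∀ᵐ z : P, ∀ᵐ s, p (z.1, s) :=
  (Measure.quasiMeasurePreserving_fst (ν := (volume : Measure ℝ))).ae
    (Measure.ae_ae_of_ae_prod (μ := (volume : Measure ℝ)) (ν := (volume : Measure ℝ)) h)

end Cf1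

open Cf1 in
theorem rowCf1 : OfCf1 := by
  intro hS hZ r f fY hr hf hY hw
  rw [Qp_zero hr.le] at hw
  have s1 := (hS (-r) r 0 r f fY hf hY).1 hw
  rw [← Qp_zero hr.le] at s1
  refine ⟨⟨fun s => 2 * (slY (-r) r f s / (r - -r) + (r - -r) * slY (-r) r fY s),
    ((((hf.int_slY _ _).div_const _).add ((hY.int_slY _ _).const_mul _)).const_mul _).integrableOn,
    fun s => ?_, s1.mono fun p a hp => a hp _ (by linarith) le_rfl⟩, fun g hg hT δ hδ => ?_⟩
  · have a := slY_nonneg (-r) r f s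
    have b := slY_nonneg (-r) r fY s
    have c : 0 < r - -r := by linarith
    positivity
  obtain ⟨k, hk⟩ : ∃ k : ℝ → ℝ, ∀ s, k s = 2 / δ * slY (-r) r fY s := ⟨_, fun _ => rfl⟩
  have ik : Integrable k := funext hk ▸ (hY.int_slY _ _).const_mul _
  have k0 : ∀ s, 0 ≤ k s := fun s => by
    have b := slY_nonneg (-r) r fY s
    rw [hk]; positivity
  obtain ⟨s₀, ⟨a1, a2⟩, p0⟩ := ((((small (hg.int_slY (-r) r) (δ := δ ^ 2 / 8) (by positivity)).and
    (small ik (half_pos hδ))).filter_mono nhdsWithin_le_nhds).and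
    (self_mem_nhdsWithin (s := Ioi (0 : ℝ)))).exists
  rw [hg.slY_int] at a1
  have z1 := ((hZ r f g hr hf hg).2.2.2.2.2.2 hT).1 s₀
  have b1 : ∀ᵐ p : P, p ∈ Qp 0 r → p.2 < s₀ → |f p| ≤ δ / 2 + p.2 * k p.2 := by
    filter_upwards [s1, ae_snd z1] with p a b hp hs
    have q0 : 0 < p.2 := hp.2
    have q1 : p.2 < r := hp.1.2.2
    have c := a hp p.2 q0 (by linarith)
    have d : slY (-r) r f p.2 / p.2 ≤ δ ^ 2 / 8 := by
      rw [div_le_iff₀' q0]
      exact (b ⟨q0, lt_min hs q1⟩).trans (mul_le_mul_of_nonneg_left a1 q0.le)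
    have e : δ * (p.2 * k p.2) = 2 * (p.2 * slY (-r) r fY p.2) := by rw [hk]; field_simp
    have n := mul_nonneg q0.le (k0 p.2)
    exact abs_le_of_sq_le_sq' (by nlinarith [sq_nonneg (p.2 * k p.2)]) (by positivity) |> abs_le.2
  refine ⟨s₀, k, p0, ik.integrableOn, k0, ?_⟩
  filter_upwards [b1, ae_line b1] with p a b hp hs
  have q0 : 0 < p.2 := hp.2
  have q1 : p.2 < r := hp.1.2.2
  refine ⟨(a hp hs).trans (by linarith), ?_⟩
  have i1 : IntegrableOn (fun _ : ℝ => δ / 2) (Ioo 0 p.2) := integrableOn_const (by simp)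
  have i2 : IntegrableOn (fun σ => p.2 * k σ) (Ioo 0 p.2) := (ik.const_mul _).integrableOn
  rw [intervalIntegral.integral_of_le q0.le, integral_Ioc_eq_integral_Ioo, ← Real.norm_eq_abs]
  refine (norm_integral_le_of_norm_le (i1.add i2) ?_).trans ?_
  · refine (ae_restrict_iff' measurableSet_Ioo).2 (b.mono fun σ c hσ => ?_)
    refine (c ⟨⟨hp.1.1, by linarith [hσ.1], hσ.2.trans q1⟩, hσ.1⟩ (hσ.2.trans hs)).trans ?_
    exact add_le_add le_rfl (mul_le_mul_of_nonneg_right hσ.2.le (k0 σ))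
  · have c : ∫ σ in Ioo 0 p.2, k σ ≤ δ / 2 := (setIntegral_mono_set ik.integrableOn
      (Eventually.of_forall k0) (Ioo_subset_Ioo_right hs.le).eventuallyLE).trans a2
    simp only [Pi.add_apply]
    rw [integral_add i1 i2, integral_const_mul, setIntegral_const, Real.volume_real_Ioo_of_le q0.le,
      smul_eq_mul]
    nlinarith [mul_le_mul_of_nonneg_left c q0.le]

end Pool.Agent.MP_ed9623_an.H77
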