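import Pool.Agent.MP_ed9623_an.H77.SpecW

/-! Density of test functions. -/

open MeasureTheory Filter Topology Set
open scoped ContDiff Pointwise

namespace Pool.Agent.MP_ed9623_an.H77

open H64

namespace Dens

/-- Convergence in the quadratic mean. -/
structure Cv (F : ℕ → P → ℝ) (g : P → ℝ) : Prop where
  m : ∀ n, M2 (F n)
  mg : M2 g
  lim : Tendsto (fun n => nm fun p => g p - F n p) atTop (𝓝 0)

variable {F F' : ℕ → P → ℝ} {f g g' : P → ℝ} {γ c : ℝ → ℝ} {d : Fin 2 → P → ℝ}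

theorem Cv.congr (h : Cv F g) (hF : ∀ n p, F n p = F' n p) (hg : ∀ p, g p = g' p) : Cv F' g' := by
  rw [← funext hg, ← funext fun n => funext (hF n)]
  exact h

theorem Cv.add (h : Cv F g) (h' : Cv F' g') :
    Cv (fun n p => F n p + F' n p) fun p => g p + g' p := by
  refine ⟨fun n => (h.m n).add (h'.m n), h.mg.add h'.mg, squeeze_zero (fun _ => nm_nonneg _)
    (fun n => ?_) (by simpa using h.lim.add h'.lim)⟩
  refine le_of_eq_of_le (congrArg nm (funext fun p => by ring))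
    (nm_add_le (h.mg.sub (h.m n)) (h'.mg.sub (h'.m n)))

theorem Cv.neg (h : Cv F g) : Cv (fun n p => -F n p) fun p => -g p := by
  refine ⟨fun n => (h.m n).neg, h.mg.neg, h.lim.congr fun n => ?_⟩
  rw [← nm_neg]
  exact congrArg nm (funext fun p => by ring)

theorem Cv.gmul (h : Cv F g) (hc : Gam c) :
    Cv (fun n p => c p.1 * F n p) fun p => c p.1 * g p := by
  obtain ⟨C, c0, hC⟩ := hc.bd
  refine ⟨fun n => (h.m n).gmul hc, h.mg.gmul hc, squeeze_zero (fun _ => nm_nonneg _)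
    (fun n => ?_) (by simpa using h.lim.const_mul C)⟩
  exact le_of_eq_of_le (congrArg nm (funext fun p => by ring))
    (nm_bmul (m := fun p => c p.1) (h.mg.sub (h.m n)) c0 (Eventually.of_forall fun p => hC p.1))

theorem Cv.ev (h : Cv F g) {ε : ℝ} (hε : 0 < ε) :
    ∀ᶠ n in atTop, nm (fun p => g p - F n p) ≤ ε := h.lim.eventually (eventually_le_nhds hε)

/-- The extra term of the product rule. -/
noncomputable def ex (c : ℝ → ℝ) (f : P → ℝ) : Fin 2 → P → ℝ :=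
  ![fun p => deriv c p.1 * f p, fun _ => 0]

theorem gm (h : H1 γ f d) (hγ : Gam γ) (hc : Gam c) :
    H1 γ (fun p => c p.1 * f p) fun i p => c p.1 * d i p + ex c f i p := by
  have m0 := (h.md 0).add ((h.md 1).gmul hγ.deriv)
  have a := (h.wd0 hγ).smul h.m m0 hc.smP
  have b := h.wd1.smul h.m (h.md 1) hc.smP
  simp only [hc.pd0] at a
  simp only [hc.pd1, zero_mul, add_zero] at b
  refine (H1O.of_wd hγ (h.m.gmul hc) ((m0.gmul hc).add (h.m.gmul hc.deriv)) ((h.md 1).gmul hc)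
    a b).congr EventuallyEq.rfl fun i => Eventually.of_forall fun p => ?_
  fin_cases i
  · simp [ex]; ring
  · simp [ex]

theorem dd_lin {a b : P → ℝ} (ha : ContDiff ℝ ∞ a) (hb : ContDiff ℝ ∞ b) (hc : Gam c) (i : Fin 2)
    (p : P) : dd γ i (fun p => a p + c p.1 * b p) p =
      dd γ i a p + (c p.1 * dd γ i b p + ex c b i p) := by
  have e : ∀ e, pd e (fun p => a p + c p.1 * b p) p =
      pd e a p + (pd e (fun p : P => c p.1) p * b p + c p.1 * pd e b p) := fun e => by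
    rw [pd_add e (sm_diff ha p) (sm_diff (hc.smP.mul hb) p),
      pd_mul e (sm_diff hc.smP p) (sm_diff hb p)]
  fin_cases i
  · simp only [Fin.zero_eta, dd0, e, hc.pd0, hc.pd1, ex, Matrix.cons_val_zero]; ring
  · simp only [Fin.mk_one, dd1, e, hc.pd1, ex, Matrix.cons_val_one, Matrix.cons_val_zero]; ring

theorem mol_neg (k f : P → ℝ) (p : P) : mol k (fun z => -f z) p = -mol k f p := by
  simp [mol, integral_neg]

section seq

variable (h1 : Mol1S) (h2 : Mol2S) {k : ℕ → P → ℝ} {e : ℕ → ℝ} (hk : ∀ n, Ker (e n) (k n))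
  (he : Tendsto e atTop (𝓝 0))

include h2 hk he in
theorem cv_mol (hf : M2 f) : Cv (fun n => mol (k n) f) f := by
  refine ⟨fun n => (h2.2.1 _ _ _ (hk n) hf).1, hf, Metric.tendsto_nhds.2 fun δ hδ => ?_⟩
  obtain ⟨ε₀, h0, h⟩ := h2.2.2.2 f hf (δ / 2) (half_pos hδ)
  filter_upwards [he.eventually (eventually_le_nhds h0)] with n hn
  rw [Real.dist_eq, sub_zero, abs_of_nonneg (nm_nonneg _), nm_sub_comm]
  exact (h _ _ hn (hk n)).trans_lt (half_lt_self hδ)

include h1 hk in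
theorem pd_mol {v : P} (hf : M2 f) (hw : WD univ v f g) (n : ℕ) (p : P) :
    pd v (mol (k n) f) p = mol (k n) g p := by
  rw [((h1 _ (hk n).test).1 f hf).2 v]
  exact mol_wd (hk n).test hw fun _ _ => mem_univ _

include h1 h2 hk he in
theorem cv_dd (h : H1 γ f d) (hγ : Gam γ) (i : Fin 2) :
    Cv (fun n => dd γ i (mol (k n) f)) (d i) := by
  have a := cv_mol h2 hk he ((h.md 0).add ((h.md 1).gmul hγ.deriv))
  have b := cv_mol h2 hk he (h.md 1)
  fin_cases i
  · refine (a.add (b.gmul hγ.deriv).neg).congr (fun n p => ?_) fun p => by simp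
    simp only [Fin.zero_eta, dd0, pd_mol h1 hk h.m (h.wd0 hγ), pd_mol h1 hk h.m h.wd1]
    ring
  · exact b.congr (fun n p => (pd_mol h1 hk h.m h.wd1 n p).symm) fun _ => rfl

include h2 hk he in
theorem cv_ex (hf : M2 f) (hc : Gam c) (i : Fin 2) :
    Cv (fun n => ex c (mol (k n) f) i) (ex c f i) := by
  fin_cases i
  · exact (cv_mol h2 hk he hf).gmul hc.deriv
  · exact ⟨fun _ => M2.zero, M2.zero, by simp [ex, nm_zero]⟩

end seq

theorem test_mol (h1 : Mol1S) {σ r r₁ ε : ℝ} {k : P → ℝ} (hk : Ker ε k) (hε : ε ≤ r - r₁)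
    (hs : tsupport k ⊆ {v | 0 < v.2}) (hf : M2 f) (hv : Van (Qp σ r₁)ᶜ f) :
    Test (Qp σ r) (mol k f) := by
  have hK : IsCompact ((Metric.closedBall (0 : P) r₁ ∩ {p | σ ≤ p.2}) + tsupport k) :=
    ((isCompact_closedBall _ _).inter_right (isClosed_le continuous_const continuous_snd)).add
      hk.1.2.1
  have hs' : tsupport (mol k f) ⊆ (Metric.closedBall (0 : P) r₁ ∩ {p | σ ≤ p.2}) + tsupport k := by
    refine closure_minimal (fun x hx => ?_) hK.isClosed
    by_contra hc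
    refine hx (mol_van (O := (Qp σ r₁)ᶜ)
      (fun z hz hq => hc ⟨z, ⟨?_, show σ ≤ z.2 from le_of_lt hq.2⟩, _, hz, by simp⟩) hv)
    exact Metric.ball_subset_closedBall (Q_eq_ball r₁ ▸ hq.1)
  refine ⟨((h1 _ hk.test).1 f hf).1, hK.of_isClosed_subset (isClosed_tsupport _) hs',
    hs'.trans ?_⟩
  rintro _ ⟨z, ⟨a, b⟩, v, hv, rfl⟩
  have c := mem_ball_zero_iff.1 (hk.1.2.2 hv)
  have a' := mem_closedBall_zero_iff.1 a
  refine ⟨?_, lt_of_le_of_lt (show σ ≤ z.2 from b) (lt_add_of_pos_right _ (hs hv))⟩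
  rw [Q_eq_ball, mem_ball_zero_iff]
  exact (norm_add_le _ _).trans_lt (by linarith)

theorem kers (h2 : Mol2S) {t : ℝ} (ht : 0 < t) : ∃ (k : ℕ → P → ℝ) (e : ℕ → ℝ),
    (∀ n, Ker (e n) (k n)) ∧ Tendsto e atTop (𝓝 0) ∧ (∀ n, e n ≤ t) ∧
      ∀ n, tsupport (k n) ⊆ {v | 0 < v.2} := by
  obtain ⟨e, -, e1, e2⟩ := exists_seq_strictAnti_tendsto' ht
  have : ∀ n, ∃ k, Ker (e n) k ∧ tsupport k ⊆ Metric.ball 0 (e n) ∩ {v | 0 < v.2} := fun n => by
    have p := (e1 n).1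
    refine h2.1 _ _ (Metric.isOpen_ball.inter (isOpen_lt continuous_const continuous_snd))
      ⟨(0, e n / 2), ?_, half_pos p⟩ inter_subset_left
    rw [← Q_eq_ball, mem_Q, abs_zero, abs_of_pos (half_pos p)]
    exact ⟨p, half_lt_self p⟩
  choose k k1 k2 using this
  exact ⟨k, e, k1, e2, fun n => (e1 n).2.le, fun n => (k2 n).trans inter_subset_right⟩

end Dens

open Dens in
theorem rowDens : OfDens := by
  intro h1 h2 γ σ r r₁ hγ hr
  obtain ⟨k, e, hk, he, e1, e2⟩ := kers h2 (sub_pos.2 hr)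
  refine ⟨fun f d h hv ε hε => ?_, fun θ ζ dζ h hζ hv ε hε => ?_⟩
  · obtain ⟨n, a, b⟩ := (((cv_mol h2 hk he h.m).ev hε).and
      (eventually_all.2 fun i => (cv_dd h1 h2 hk he h hγ i).ev hε)).exists
    exact ⟨_, test_mol h1 (hk n) (e1 n) (e2 n) h.m hv, a, b⟩
  have w1 : WD univ (ee 1) θ fun p => -ζ 0 p := h.wd1
  have w0 : WD univ (ee 0) θ fun p => ζ 1 p - deriv γ p.1 * ζ 0 p := by
    simpa only [Matrix.cons_val_zero, Matrix.cons_val_one, mul_neg, ← sub_eq_add_neg]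
      using h.wd0 hγ
  have hA := (hζ 1).sub (gm (hζ 0) hγ hγ.deriv) hγ
  have p0 : ∀ n, perp γ (mol (k n) θ) 0 = mol (k n) (ζ 0) := fun n => funext fun p => by
    change -pd (ee 1) (mol (k n) θ) p = _
    rw [pd_mol h1 hk h.m w1, mol_neg, neg_neg]
  have p1 : ∀ n, perp γ (mol (k n) θ) 1 = fun p =>
      mol (k n) (fun p => ζ 1 p - deriv γ p.1 * ζ 0 p) p + deriv γ p.1 * mol (k n) (ζ 0) p :=
    fun n => funext fun p => by
      change dd γ 0 (mol (k n) θ) p = _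
      rw [dd0, pd_mol h1 hk h.m w1, pd_mol h1 hk h.m w0, mol_neg]
      ring
  have c : ∀ j, Cv (fun n => perp γ (mol (k n) θ) j) (ζ j) ∧
      ∀ i, Cv (fun n => dd γ i (perp γ (mol (k n) θ) j)) (dζ j i) := by
    rw [Fin.forall_fin_two]
    simp only [p0, p1]
    refine ⟨⟨cv_mol h2 hk he (hζ 0).m, cv_dd h1 h2 hk he (hζ 0) hγ⟩,
      ((cv_mol h2 hk he hA.m).add ((cv_mol h2 hk he (hζ 0).m).gmul hγ.deriv)).congr
        (fun _ _ => rfl) fun p => by ring, fun i => ?_⟩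
    refine ((cv_dd h1 h2 hk he hA hγ i).add (((cv_dd h1 h2 hk he (hζ 0) hγ i).gmul hγ.deriv).add
      (cv_ex h2 hk he (hζ 0).m hγ.deriv i))).congr (fun n p => ?_) fun p => by ring
    exact (dd_lin ((h1 _ (hk n).test).1 _ hA.m).1 ((h1 _ (hk n).test).1 _ (hζ 0).m).1
      hγ.deriv i p).symm
  obtain ⟨n, a⟩ := (eventually_all.2 fun j => ((c j).1.ev hε).and
    (eventually_all.2 fun i => ((c j).2 i).ev hε)).exists
  exact ⟨_, test_mol h1 (hk n) (e1 n) (e2 n) h.m hv, a⟩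

end Pool.Agent.MP_ed9623_an.H77
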