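import Pool.Agent.MP_ed9623_an.H77.SpecX

/-! The weighted energy estimate for the time derivatives. -/

open MeasureTheory Filter Topology Set
open scoped ContDiff InnerProductSpace

set_option linter.unusedSectionVars false

namespace Pool.Agent.MP_ed9623_an.H77

namespace EnN

theorem cs0 {p q : ℝ → ℝ} {e e' : ℝ} (hp : Continuous p) (hq : Continuous q) (he : 0 < e)
    (he' : 0 < e') (h : ∫ t in (0 : ℝ)..1, p t ^ 2 ≤ e ^ 2)
    (h' : ∫ t in (0 : ℝ)..1, q t ^ 2 ≤ e' ^ 2) : ∫ t in (0 : ℝ)..1, p t * q t ≤ e * e' := by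
  have h1 : ∫ t in (0 : ℝ)..1, 2 * (e * e') * (p t * q t) ≤
      ∫ t in (0 : ℝ)..1, (e' ^ 2 * p t ^ 2 + e ^ 2 * q t ^ 2) :=
    intervalIntegral.integral_mono_on zero_le_one (Continuous.intervalIntegrable (by fun_prop) _ _)
      (Continuous.intervalIntegrable (by fun_prop) _ _) fun t _ => by
        nlinarith [sq_nonneg (e' * p t - e * q t)]
  rw [intervalIntegral.integral_add (Continuous.intervalIntegrable (by fun_prop) _ _)
    (Continuous.intervalIntegrable (by fun_prop) _ _), intervalIntegral.integral_const_mul,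
    intervalIntegral.integral_const_mul, intervalIntegral.integral_const_mul] at h1
  have h2 := mul_le_mul_of_nonneg_left h (sq_nonneg e')
  have h3 := mul_le_mul_of_nonneg_left h' (sq_nonneg e)
  refine le_of_mul_le_mul_left ?_ (mul_pos two_pos (mul_pos he he'))
  linarith

theorem cs {p q : ℝ → ℝ} {e e' : ℝ} (hp : Continuous p) (hq : Continuous q) (he : 0 ≤ e)
    (he' : 0 ≤ e') (h : ∫ t in (0 : ℝ)..1, p t ^ 2 ≤ e ^ 2)
    (h' : ∫ t in (0 : ℝ)..1, q t ^ 2 ≤ e' ^ 2) : ∫ t in (0 : ℝ)..1, p t * q t ≤ e * e' := by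
  have h1 : Tendsto (fun δ : ℝ => (e + δ) * (e' + δ)) (𝓝[>] 0) (𝓝 ((e + 0) * (e' + 0))) :=
    (Continuous.tendsto (by fun_prop) 0).mono_left nhdsWithin_le_nhds
  rw [add_zero, add_zero] at h1
  refine ge_of_tendsto h1 (eventually_nhdsWithin_of_forall fun δ hδ => ?_)
  have hδ' : 0 < δ := hδ
  exact cs0 hp hq (by linarith) (by linarith) (h.trans (by nlinarith)) (h'.trans (by nlinarith))

variable {H V : Type} [NormedAddCommGroup H] [InnerProductSpace ℝ H] [CompleteSpace H]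
  [NormedAddCommGroup V] [InnerProductSpace ℝ V] [CompleteSpace V]

/-- A bound in the mean. -/
def Lb (f : ℝ → V) (e : ℝ) : Prop :=
  Continuous f ∧ 0 ≤ e ∧ ∫ t in (0 : ℝ)..1, ‖f t‖ ^ 2 ≤ e ^ 2

theorem Lb.mono {f : ℝ → V} {e e' : ℝ} (h : Lb f e) (he : e ≤ e') : Lb f e' :=
  ⟨h.1, h.2.1.trans he, h.2.2.trans (pow_le_pow_left₀ h.2.1 he 2)⟩

theorem Lb.of_le {f g : ℝ → V} {e c : ℝ} (h : Lb f e) (hg : Continuous g) (hc : 0 ≤ c)
    (hl : ∀ t, ‖g t‖ ≤ c * ‖f t‖) : Lb g (c * e) := by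
  have hf := h.1
  refine ⟨hg, mul_nonneg hc h.2.1, ?_⟩
  have h1 : ∫ t in (0 : ℝ)..1, ‖g t‖ ^ 2 ≤ ∫ t in (0 : ℝ)..1, c ^ 2 * ‖f t‖ ^ 2 :=
    intervalIntegral.integral_mono_on zero_le_one (Continuous.intervalIntegrable (by fun_prop) _ _)
      (Continuous.intervalIntegrable (by fun_prop) _ _) fun t _ => by
        rw [← mul_pow]
        exact pow_le_pow_left₀ (norm_nonneg _) (hl t) 2
  rw [intervalIntegral.integral_const_mul] at h1
  rw [mul_pow]
  exact h1.trans (mul_le_mul_of_nonneg_left h.2.2 (sq_nonneg c))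

theorem Lb.smul {f : ℝ → V} {e c : ℝ} (h : Lb f e) (hc : 0 ≤ c) : Lb (fun t => c • f t) (c * e) :=
  h.of_le (h.1.const_smul c) hc fun t => by rw [norm_smul, Real.norm_eq_abs, abs_of_nonneg hc]

theorem Lb.add {f g : ℝ → V} {e e' : ℝ} (h : Lb f e) (h' : Lb g e') :
    Lb (fun t => f t + g t) (e + e') := by
  have hf := h.1
  have hg := h'.1
  refine ⟨hf.add hg, add_nonneg h.2.1 h'.2.1, ?_⟩
  have h1 : ∫ t in (0 : ℝ)..1, ‖f t + g t‖ ^ 2 ≤
      ∫ t in (0 : ℝ)..1, (‖f t‖ ^ 2 + ‖g t‖ ^ 2 + 2 * (‖f t‖ * ‖g t‖)) :=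
    intervalIntegral.integral_mono_on zero_le_one (Continuous.intervalIntegrable (by fun_prop) _ _)
      (Continuous.intervalIntegrable (by fun_prop) _ _) fun t _ => by
        have := pow_le_pow_left₀ (norm_nonneg _) (norm_add_le (f t) (g t)) 2
        linarith
  rw [intervalIntegral.integral_add (Continuous.intervalIntegrable (by fun_prop) _ _)
    (Continuous.intervalIntegrable (by fun_prop) _ _),
    intervalIntegral.integral_add (Continuous.intervalIntegrable (by fun_prop) _ _)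
    (Continuous.intervalIntegrable (by fun_prop) _ _), intervalIntegral.integral_const_mul] at h1
  have h2 := cs hf.norm hg.norm h.2.1 h'.2.1 h.2.2 h'.2.2
  linarith [h.2.2, h'.2.2]

theorem Lb.sub {f g : ℝ → V} {e e' : ℝ} (h : Lb f e) (h' : Lb g e') :
    Lb (fun t => f t - g t) (e + e') := by
  have := h.add (h'.of_le (c := 1) h'.1.neg zero_le_one fun t => by simp)
  simpa only [one_mul, ← sub_eq_add_neg, Pi.neg_apply] using this

theorem Lb.const (v : V) : Lb (fun _ => v) ‖v‖ := ⟨continuous_const, norm_nonneg _, by simp⟩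

theorem Lb.sum {f : ℕ → ℝ → V} {e : ℕ → ℝ} {n : ℕ} (h : ∀ k < n, Lb (f k) (e k)) :
    Lb (fun t => ∑ k ∈ Finset.range n, f k t) (∑ k ∈ Finset.range n, e k) := by
  induction n with
  | zero => simpa using Lb.const (0 : V)
  | succ n ih =>
    simp only [Finset.sum_range_succ]
    exact (ih fun k hk => h k (by omega)).add (h n (by omega))

theorem Lb.bil (S : St H V) {f g : ℝ → V} {e e' : ℝ} (h : Lb f e) (h' : Lb g e')
    (hf : ∀ t ∈ Icc (0 : ℝ) 1, ‖S.ι (f t)‖ ≤ e) (hg : ∀ t ∈ Icc (0 : ℝ) 1, ‖S.ι (g t)‖ ≤ e') :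
    Lb (fun t => S.B (f t) (g t)) (√S.C * (e * e')) := by
  have cf := h.1
  have cg := h'.1
  have he := h.2.1
  have he' := h'.2.1
  have hC := S.C0
  have cB : Continuous fun t => S.B (f t) (g t) := by fun_prop
  refine ⟨cB, by positivity, ?_⟩
  have h1 : ∫ t in (0 : ℝ)..1, ‖S.B (f t) (g t)‖ ^ 2 ≤
      ∫ t in (0 : ℝ)..1, S.C * (e * e') * (‖f t‖ * ‖g t‖) :=
    intervalIntegral.integral_mono_on zero_le_one (Continuous.intervalIntegrable (by fun_prop) _ _)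
      (Continuous.intervalIntegrable (by fun_prop) _ _) fun t ht => by
        refine (S.lad _ _).trans ?_
        rw [mul_assoc S.C]
        refine mul_le_mul_of_nonneg_left ?_ hC
        have a := mul_le_mul (hf t ht) (hg t ht) (norm_nonneg _) he
        have b := mul_le_mul_of_nonneg_right a (mul_nonneg (norm_nonneg (f t)) (norm_nonneg (g t)))
        linarith
  rw [intervalIntegral.integral_const_mul] at h1
  have h2 := mul_le_mul_of_nonneg_left (cs cf.norm cg.norm he he' h.2.2 h'.2.2)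
    (by positivity : 0 ≤ S.C * (e * e'))
  rw [mul_pow, Real.sq_sqrt hC]
  linarith

/-- The weighted derivative. -/
noncomputable def yy (U : ℝ → V) (k : ℕ) (t : ℝ) : V := t ^ k • iteratedDeriv k U t

theorem yy_sq (U : ℝ → V) (k : ℕ) (t : ℝ) :
    ‖yy U k t‖ ^ 2 = (t ^ k * ‖iteratedDeriv k U t‖) ^ 2 := by
  rw [yy, norm_smul, Real.norm_eq_abs, mul_pow, mul_pow, sq_abs]

theorem yy_io (S : St H V) (U : ℝ → V) (k : ℕ) {t : ℝ} (ht : 0 ≤ t) :
    ‖S.ι (yy U k t)‖ = t ^ k * ‖S.ι (iteratedDeriv k U t)‖ := by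
  rw [yy, map_smul, norm_smul, Real.norm_eq_abs, abs_of_nonneg (pow_nonneg ht k)]

theorem yy_B (S : St H V) (U : ℝ → V) {n k : ℕ} (hk : k ≤ n) (t : ℝ) :
    t ^ n • S.B (iteratedDeriv k U t) (iteratedDeriv (n - k) U t) =
      S.B (yy U k t) (yy U (n - k) t) := by
  simp only [yy, map_smul, smul_apply, smul_smul]
  rw [← pow_add, Nat.sub_add_cancel hk]

theorem yy_eq (hE : EqNS) {S : St H V} {R : ℝ} {U : ℝ → V} (h : Bd S R univ U) (n : ℕ) (t : ℝ) :
    t ^ n • adj S.ι (S.ι (iteratedDeriv (n + 1) U t)) = (if n = 0 then S.γ else 0)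
      - S.A (yy U n t) - ∑ k ∈ Finset.range (n + 1),
        (n.choose k : ℝ) • S.B (yy U k t) (yy U (n - k) t) := by
  rw [hE h n t, smul_sub, smul_sub, Finset.smul_sum]
  congr 1
  · congr 1
    · split_ifs with h0
      · simp [h0]
      · simp
    · rw [yy, map_smul]
  · refine Finset.sum_congr rfl fun k hk => ?_
    rw [smul_comm, yy_B S U (Nat.lt_succ_iff.1 (Finset.mem_range.1 hk))]

theorem pt (S : St H V) {R : ℝ} {u y w : V} (hu : ‖u‖ ≤ R) :
    2 * ⟪w - S.A y - S.B u y - S.B y u, y⟫_ℝ ≤ -S.c * ‖y‖ ^ 2 +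
      4 * (S.C ^ 2 / (S.c / 8) ^ 3 * (‖S.ι‖ * R * R) ^ 2) * ‖S.ι y‖ ^ 2 + 2 / S.c * ‖w‖ ^ 2 := by
  have hc := S.c0
  have hε : 0 < S.c / 8 := by positivity
  have a1 := S.young hε u y
  have a2 := S.young' hε u y
  have a3 := S.coer y
  have a4 := real_inner_le_norm w y
  have a5 := (neg_le_abs _).trans (abs_real_inner_le_norm (S.B u y) y)
  have a6 := (neg_le_abs _).trans (abs_real_inner_le_norm (S.B y u) y)
  have a7 : ‖w‖ * ‖y‖ ≤ S.c / 4 * ‖y‖ ^ 2 + 1 / S.c * ‖w‖ ^ 2 := by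
    have e : S.c / 4 * ‖y‖ ^ 2 + 1 / S.c * ‖w‖ ^ 2 - ‖w‖ * ‖y‖ =
        1 / S.c * (‖w‖ - S.c / 2 * ‖y‖) ^ 2 := by
      field_simp
      ring
    have : 0 ≤ 1 / S.c * (‖w‖ - S.c / 2 * ‖y‖) ^ 2 := by positivity
    linarith
  have hR : 0 ≤ R := (norm_nonneg u).trans hu
  have a8 : ‖S.ι u‖ * ‖u‖ ≤ ‖S.ι‖ * R * R :=
    mul_le_mul (S.ι.le_of_opNorm_le_of_le le_rfl hu) hu (norm_nonneg _) (by positivity)
  have a9 := mul_le_mul_of_nonneg_left (mul_le_mul_of_nonneg_right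
    (pow_le_pow_left₀ (by positivity) a8 2) (sq_nonneg ‖S.ι y‖))
    (by positivity : 0 ≤ S.C ^ 2 / (S.c / 8) ^ 3)
  have e : 2 / S.c * ‖w‖ ^ 2 = 2 * (1 / S.c * ‖w‖ ^ 2) := by ring
  rw [inner_sub_left, inner_sub_left, inner_sub_left, e]
  linarith

end EnN

open EnN in
theorem rowEnN : OfEnN := by
  intro hP hE H V _ _ _ _ _ _ S R
  have hc := S.c0
  obtain ⟨κ, hκ⟩ : ∃ κ : ℝ, κ = 4 * (S.C ^ 2 / (S.c / 8) ^ 3 * (‖S.ι‖ * R * R) ^ 2) := ⟨_, rfl⟩
  have hκ0 : 0 ≤ κ := by rw [hκ]; positivity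
  obtain ⟨Γ, hΓ, hPl⟩ := hP κ
  obtain ⟨D, hD⟩ : ∃ D : ℝ, D = ‖S.γ‖ + ‖S.A‖ + √S.C := ⟨_, rfl⟩
  obtain ⟨M, hM⟩ : ∃ M : ℝ, M = Γ * (2 / S.c) + Γ * (2 / S.c) / S.c := ⟨_, rfl⟩
  have hM0 : 0 ≤ M := by rw [hM]; positivity
  refine ⟨√M * D, by rw [hD]; positivity, fun U b n hU hb1 hb0 hb => ?_⟩
  have hs : ContDiff ℝ ∞ U := contDiffOn_univ.1 hU.1.1
  have cz : ∀ k, Continuous (iteratedDeriv k U) := fun k =>
    hs.continuous_iteratedDeriv k (by exact_mod_cast le_top)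
  have cy : ∀ k, Continuous (yy U k) := fun k => (continuous_pow k).smul (cz k)
  have dz : ∀ k t, HasDerivAt (iteratedDeriv k U) (iteratedDeriv (k + 1) U t) t := fun k t => by
    rw [iteratedDeriv_succ]
    exact (hs.differentiable_iteratedDeriv k (by exact_mod_cast ENat.natCast_lt_top k) t).hasDerivAt
  have l1 : ∀ k ≤ n, Lb (yy U k) (b k) := fun k hk =>
    ⟨cy k, hb0 k, by simpa only [yy_sq] using (hb k hk).2⟩
  have l2 : ∀ k ≤ n, ∀ t ∈ Icc (0 : ℝ) 1, ‖S.ι (yy U k t)‖ ≤ b k := fun k hk t ht => by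
    rw [yy_io S U k ht.1]
    exact (hb k hk).1 t ht
  have l3 : ∀ k ≤ n, ∀ l ≤ n, ∀ a : ℕ, Lb (fun t => (a : ℝ) • S.B (yy U k t) (yy U l t))
      (a * (√S.C * (b k * b l))) := fun k hk l hl a =>
    (Lb.bil S (l1 k hk) (l1 l hl) (l2 k hk) (l2 l hl)).smul (Nat.cast_nonneg a)
  have l4 : Lb (fun _ => if n = 0 then S.γ else 0) (‖S.γ‖ * b n) := by
    refine (Lb.const _).mono ?_
    split_ifs with h0
    · rw [h0]
      exact le_mul_of_one_le_right (norm_nonneg _) hb1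
    · rw [norm_zero]
      exact mul_nonneg (norm_nonneg _) (hb0 n)
  have l5 : Lb (fun t => S.A (yy U n t)) (‖S.A‖ * b n) :=
    (l1 n le_rfl).of_le (S.A.continuous.comp (cy n)) (norm_nonneg _) fun t => S.A.le_opNorm _
  have l6 := (((l4.sub l5).sub (Lb.sum (n := n + 1) fun k hk =>
    l3 k (by omega) (n - k) (by omega) (n.choose k))).smul
    (c := (n : ℝ) + 1) (by positivity)).sub (Lb.sum (n := n) fun k hk =>
    l3 (k + 1) (by omega) (n - k) (by omega) ((n + 1).choose (k + 1)))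
  obtain ⟨W, hW⟩ : ∃ W : ℝ → V, W = fun t => ((n : ℝ) + 1) • ((if n = 0 then S.γ else 0) -
      S.A (yy U n t) - ∑ k ∈ Finset.range (n + 1),
        (n.choose k : ℝ) • S.B (yy U k t) (yy U (n - k) t)) - ∑ k ∈ Finset.range n,
      ((n + 1).choose (k + 1) : ℝ) • S.B (yy U (k + 1) t) (yy U (n - k) t) := ⟨_, rfl⟩
  rw [← hW] at l6
  have l7 : Lb W (D * rc b n) := by
    refine l6.mono ?_
    have s1 : 0 ≤ ∑ k ∈ Finset.range n, ((n + 1).choose (k + 1) : ℝ) * (b (k + 1) * b (n - k)) :=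
      Finset.sum_nonneg fun k _ => mul_nonneg (Nat.cast_nonneg _) (mul_nonneg (hb0 _) (hb0 _))
    have s2 : 0 ≤ ((n : ℝ) + 1) *
        ∑ k ∈ Finset.range (n + 1), (n.choose k : ℝ) * (b k * b (n - k)) :=
      mul_nonneg (by positivity)
        (Finset.sum_nonneg fun k _ => mul_nonneg (Nat.cast_nonneg _) (mul_nonneg (hb0 _) (hb0 _)))
    have s3 : 0 ≤ ((n : ℝ) + 1) * b n := mul_nonneg (by positivity) (hb0 n)
    simp only [mul_left_comm _ (√S.C), ← Finset.mul_sum]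
    rw [hD, rc]
    have t1 := mul_nonneg (add_nonneg (norm_nonneg S.γ) (norm_nonneg S.A)) (add_nonneg s1 s2)
    have t2 := mul_nonneg (Real.sqrt_nonneg S.C) s3
    linarith
  obtain ⟨G, hG⟩ : ∃ G : ℝ → V, G = fun t => W t - S.A (yy U (n + 1) t) -
      S.B (U t) (yy U (n + 1) t) - S.B (yy U (n + 1) t) (U t) := ⟨_, rfl⟩
  have cU := hs.continuous
  have cY := cy (n + 1)
  have cW := l7.1
  have cG : Continuous G := by rw [hG]; fun_prop
  have dY : ∀ t, HasDerivAt (fun t => adj S.ι (S.ι (yy U (n + 1) t))) (G t) t := fun t => by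
    have d1 := (adj S.ι).hasFDerivAt.comp_hasDerivAt t (S.ι.hasFDerivAt.comp_hasDerivAt t
      ((hasDerivAt_pow (n + 1) t).smul (dz (n + 1) t)))
    refine d1.congr_deriv ?_
    have y0 : yy U 0 t = U t := by simp [yy]
    rw [map_add, map_add, map_smul, map_smul, map_smul, map_smul, Nat.add_sub_cancel, mul_smul,
      yy_eq hE hU, yy_eq hE hU, Finset.sum_range_succ' _ (n + 1), Finset.sum_range_succ _ n, hG, hW]
    simp only [Nat.add_sub_add_right, Nat.choose_self, Nat.choose_zero_right, Nat.cast_one,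
      one_smul, Nat.sub_self, Nat.sub_zero, y0, if_neg (Nat.succ_ne_zero n), Nat.cast_add]
    abel
  have lin : Lin S.ι univ (fun t => S.ι (yy U (n + 1) t)) (yy U (n + 1)) G :=
    ⟨(S.ι.continuous.comp cY).continuousOn, Loc2.of_cont itv_univ cY.continuousOn,
      Loc2.of_cont itv_univ cG.continuousOn, Eventually.of_forall fun _ _ => rfl,
      fun s _ t _ => (intervalIntegral.integral_eq_sub_of_hasDerivAt (fun r _ => dY r)
        (cG.intervalIntegrable _ _)).symm⟩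
  obtain ⟨r1, r2⟩ := hPl (k := fun _ => κ) (m := fun t => 2 / S.c * ‖W t‖ ^ 2) itv_univ lin hc.le
    (mem_univ 0) (mem_univ 1) zero_le_one intervalIntegrable_const
    (Continuous.intervalIntegrable (by fun_prop) _ _) (fun _ => hκ0) (fun _ => by positivity)
    (by simp) (Eventually.of_forall fun t _ => by
      rw [hG, hκ]
      exact pt S (hU.2 t (mem_univ t)).1)
  have y0 : yy U (n + 1) 0 = 0 := by simp [yy]
  simp only [y0, map_zero, norm_zero, intervalIntegral.integral_const_mul] at r1 r2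
  have b1 := mul_le_mul_of_nonneg_left l7.2.2 (by positivity : 0 ≤ Γ * (2 / S.c))
  have b2 : (√M * D * rc b n) ^ 2 = Γ * (2 / S.c) * (D * rc b n) ^ 2 +
      Γ * (2 / S.c) * (D * rc b n) ^ 2 / S.c := by
    rw [mul_assoc, mul_pow, Real.sq_sqrt hM0, hM]
    ring
  have b3 : 0 ≤ Γ * (2 / S.c) * (D * rc b n) ^ 2 := by positivity
  refine ⟨fun t ht => ?_, ?_⟩
  · rw [← yy_io S U _ ht.1]
    refine (abs_le_of_sq_le_sq' ?_
      (by rw [mul_assoc]; exact mul_nonneg (Real.sqrt_nonneg M) l7.2.1)).2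
    have := r1 t ht
    have := div_nonneg b3 hc.le
    linarith
  · simp only [← yy_sq]
    have : ∫ t in (0 : ℝ)..1, ‖yy U (n + 1) t‖ ^ 2 ≤ Γ * (2 / S.c) * (D * rc b n) ^ 2 / S.c := by
      rw [le_div_iff₀' hc]
      linarith
    linarith

end Pool.Agent.MP_ed9623_an.H77
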