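import Pool.Agent.MP_ed9623_an.H77.SpecA

/-! The energy equality. -/

open MeasureTheory Filter Topology Set
open scoped ContDiff InnerProductSpace

namespace Pool.Agent.MP_ed9623_an.H77

namespace Lm

variable {V : Type} [NormedAddCommGroup V] [InnerProductSpace ℝ V]

theorem ii_inner {I : Set ℝ} {a b : ℝ → V} (ha : Loc2 I a) (hb : Loc2 I b) {s t : ℝ}
    (hs : s ∈ I) (ht : t ∈ I) : IntervalIntegrable (fun r => ⟪a r, b r⟫_ℝ) volume s t := by
  refine (ha.ii_mul hb hs ht).mono_fun' ?_ (Eventually.of_forall fun r => norm_inner_le_norm _ _)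
  exact ((intervalIntegrable_iff.1 (ha.ii hs ht)).1).inner
    ((intervalIntegrable_iff.1 (hb.ii hs ht)).1)

theorem pt (u v U W : V) {δ : ℝ} (hδ : 0 < δ) :
    ‖⟪u, v⟫_ℝ - ⟪U, W⟫_ℝ‖ ≤
      (1 + δ⁻¹) * (‖u - U‖ ^ 2 + ‖v - W‖ ^ 2) + δ * (‖U‖ ^ 2 + ‖W‖ ^ 2) := by
  have e : ⟪u, v⟫_ℝ - ⟪U, W⟫_ℝ = ⟪u - U, v - W⟫_ℝ + ⟪u - U, W⟫_ℝ + ⟪U, v - W⟫_ℝ := by
    simp only [inner_sub_left, inner_sub_right]; ring
  rw [e]
  have h1 := norm_inner_le_norm (𝕜 := ℝ) (u - U) (v - W)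
  have h2 := norm_inner_le_norm (𝕜 := ℝ) (u - U) W
  have h3 := norm_inner_le_norm (𝕜 := ℝ) U (v - W)
  have y : ∀ a b : ℝ, a * b ≤ δ⁻¹ * a ^ 2 + δ * b ^ 2 := fun a b => by
    have h : δ * (a * b) ≤ δ * (δ⁻¹ * a ^ 2 + δ * b ^ 2) := by
      rw [mul_add, ← mul_assoc δ δ⁻¹, mul_inv_cancel₀ hδ.ne']
      nlinarith [sq_nonneg (a - δ * b), sq_nonneg a, sq_nonneg (δ * b)]
    exact le_of_mul_le_mul_left h hδ
  have y2 := y ‖u - U‖ ‖W‖
  have y3 := y ‖v - W‖ ‖U‖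
  have t := norm_add₃_le (a := ⟪u - U, v - W⟫_ℝ) (b := ⟪u - U, W⟫_ℝ) (c := ⟪U, v - W⟫_ℝ)
  nlinarith [sq_nonneg (‖u - U‖ - ‖v - W‖), sq_nonneg ‖u - U‖, sq_nonneg ‖v - W‖]

theorem lim {l : Filter ℝ} {J : ℝ → Set ℝ} {u v : ℝ → ℝ → V} {U W : ℝ → V} {s t : ℝ}
    (hst : s ≤ t) (h : ∀ᶠ h in l, s ∈ J h ∧ t ∈ J h ∧ Loc2 (J h) (u h) ∧ Loc2 (J h) (v h) ∧
      Loc2 (J h) U ∧ Loc2 (J h) W)
    (hu : Tendsto (fun h => ∫ r in s..t, ‖u h r - U r‖ ^ 2) l (𝓝 0))
    (hv : Tendsto (fun h => ∫ r in s..t, ‖v h r - W r‖ ^ 2) l (𝓝 0)) :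
    Tendsto (fun h => ∫ r in s..t, ⟪u h r, v h r⟫_ℝ) l (𝓝 (∫ r in s..t, ⟪U r, W r⟫_ℝ)) := by
  rw [Metric.tendsto_nhds]
  intro ε hε
  set C : ℝ := (∫ r in s..t, ‖U r‖ ^ 2) + ∫ r in s..t, ‖W r‖ ^ 2 with hC
  have C0 : 0 ≤ C := add_nonneg (intervalIntegral.integral_nonneg hst fun _ _ => sq_nonneg _)
    (intervalIntegral.integral_nonneg hst fun _ _ => sq_nonneg _)
  set δ : ℝ := ε / (2 * (C + 1)) with hδ
  have δ0 : 0 < δ := by positivity
  have hδC : δ * C < ε / 2 := by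
    have : δ * (C + 1) = ε / 2 := by rw [hδ]; field_simp
    nlinarith
  have h0 := (hu.add hv).const_mul (1 + δ⁻¹)
  rw [add_zero, mul_zero] at h0
  filter_upwards [h, h0.eventually (gt_mem_nhds (half_pos hε))] with x ⟨hs, ht, a, b, c, d⟩ hx
  rw [dist_eq_norm, ← intervalIntegral.integral_sub (ii_inner a b hs ht) (ii_inner c d hs ht)]
  have i1 := (a.sub c).ii_sq hs ht
  have i2 := (b.sub d).ii_sq hs ht
  have i3 := c.ii_sq hs ht
  have i4 := d.ii_sq hs ht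
  have := intervalIntegral.norm_integral_le_of_norm_le (μ := volume) hst
    (f := fun r => ⟪u x r, v x r⟫_ℝ - ⟪U r, W r⟫_ℝ)
    (Eventually.of_forall fun r _ => pt (u x r) (v x r) (U r) (W r) δ0)
    (((i1.add i2).const_mul (1 + δ⁻¹)).add ((i3.add i4).const_mul δ))
  rw [intervalIntegral.integral_add ((i1.add i2).const_mul _) ((i3.add i4).const_mul _),
    intervalIntegral.integral_const_mul, intervalIntegral.integral_const_mul,
    intervalIntegral.integral_add i1 i2, intervalIntegral.integral_add i3 i4] at this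
  linarith

theorem avg {I : Set ℝ} (hI : Itv I) {E : ℝ → ℝ} (hE : ContinuousOn E I) {s : ℝ} (hs : s ∈ I) :
    Tendsto (fun h => h⁻¹ * ∫ r in s..s + h, E r) (𝓝[≠] 0) (𝓝 (E s)) := by
  have h := intervalIntegral.integral_hasDerivAt_right (f := E) (a := s) (b := s)
    IntervalIntegrable.refl (hE.stronglyMeasurableAtFilter hI.1 s hs)
    (hE.continuousAt (hI.1.mem_nhds hs))
  simpa using hasDerivAt_iff_tendsto_slope_zero.1 h

end Lm

open Lm in
theorem lm : OfLm := by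
  intro hS H V _ _ _ _ _ _ ι I z Z G hI hL
  have main : ∀ s ∈ I, ∀ t ∈ I, s ≤ t →
      ‖z t‖ ^ 2 - ‖z s‖ ^ 2 = ∫ r in s..t, 2 * ⟪G r, Z r⟫_ℝ := by
    intro s hs t ht hst
    have hE : ContinuousOn (fun r => ‖z r‖ ^ 2) I := hL.cont.norm.pow 2
    have ev : ∀ᶠ h in 𝓝[≠] (0 : ℝ), s + h ∈ I ∧ t + h ∈ I := by
      refine Eventually.filter_mono nhdsWithin_le_nhds (Eventually.and ?_ ?_)
      · exact (continuous_const_add s).continuousAt.eventually_mem
          (by simpa using hI.1.mem_nhds hs)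
      · exact (continuous_const_add t).continuousAt.eventually_mem
          (by simpa using hI.1.mem_nhds ht)
    obtain ⟨-, g2, g3⟩ := hS hI hL.lG
    obtain ⟨-, -, z3⟩ := hS hI hL.lZ
    have R := lim (l := 𝓝[≠] (0 : ℝ)) (J := fun h => I ∩ {r | r + h ∈ I})
      (u := fun h => stk h G) (v := fun h r => Z (r + h) + Z r) (U := G)
      (W := fun r => Z r + Z r) hst
      (ev.mono fun h hh => ⟨⟨hs, hh.1⟩, ⟨ht, hh.2⟩, Loc2.of_cont (hI.inter (hI.shift h)) (g2 h),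
        ((hL.lZ.shift h).mono inter_subset_right).add (hL.lZ.mono inter_subset_left),
        hL.lG.mono inter_subset_left, (hL.lZ.add hL.lZ).mono inter_subset_left⟩)
      (g3 s hs t ht hst).1
      (by simpa only [add_sub_add_right_eq_sub] using
        (z3 s hs t ht hst).2.mono_left nhdsWithin_le_nhds)
    have L := (avg hI hE ht).sub (avg hI hE hs)
    have e : (fun h => h⁻¹ * (∫ r in t..t + h, ‖z r‖ ^ 2) - h⁻¹ * ∫ r in s..s + h, ‖z r‖ ^ 2)
        =ᶠ[𝓝[≠] (0 : ℝ)] fun h => ∫ r in s..t, ⟪stk h G r, Z (r + h) + Z r⟫_ℝ := by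
      filter_upwards [ev] with h ⟨hs', ht'⟩
      have ii : ∀ a ∈ I, ∀ b ∈ I, IntervalIntegrable (fun r => ‖z r‖ ^ 2) volume a b :=
        fun a ha b hb => (hE.mono (hI.uIcc ha hb)).intervalIntegrable
      have i2 : IntervalIntegrable (fun r => ‖z (r + h)‖ ^ 2) volume s t := by
        simpa using (ii _ hs' _ ht').comp_add_right h
      have e1 : (∫ r in t..t + h, ‖z r‖ ^ 2) - ∫ r in s..s + h, ‖z r‖ ^ 2
          = ∫ r in s..t, (‖z (r + h)‖ ^ 2 - ‖z r‖ ^ 2) := by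
        rw [intervalIntegral.integral_sub i2 (ii _ hs _ ht),
          intervalIntegral.integral_comp_add_right (fun r => ‖z r‖ ^ 2) h]
        have a1 := intervalIntegral.integral_add_adjacent_intervals (ii _ hs _ ht) (ii _ ht _ ht')
        have a2 := intervalIntegral.integral_add_adjacent_intervals (ii _ hs _ hs') (ii _ hs' _ ht')
        linarith
      rw [← mul_sub, e1, ← intervalIntegral.integral_const_mul]
      refine intervalIntegral.integral_congr_ae ?_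
      filter_upwards [hL.lift, (hL.shift h).lift] with r a b hr
      have hr' := (hI.inter (hI.shift h)).uIcc ⟨hs, hs'⟩ ⟨ht, ht'⟩ (uIoc_subset_uIcc hr)
      rw [stk, ← hL.eq r hr'.1 (r + h) hr'.2, real_inner_smul_left, ← map_sub, adj_inner, map_add,
        a hr'.1, b hr'.2, inner_add_right, inner_sub_left, inner_sub_left,
        real_inner_self_eq_norm_sq, real_inner_self_eq_norm_sq, real_inner_comm (z r)]
      ring
    rw [tendsto_nhds_unique (L.congr' e) R]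
    simp only [inner_add_right, two_mul]
  intro s hs t ht
  rcases le_total s t with h | h
  · exact main s hs t ht h
  · rw [intervalIntegral.integral_symm, ← main t ht s hs h]; ring

end Pool.Agent.MP_ed9623_an.H77
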