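import Pool.Agent.MP_ed9623_an.H77.SpecZ
import Pool.Agent.MP_ed9623_an.H41.Dens

/-! The Carleman estimate for weak solutions. -/

open MeasureTheory Filter Topology Set
open scoped ContDiff

namespace Pool.Agent.MP_ed9623_an.H77

open H64

namespace Rc1

open Dens

theorem bmul {F : ℕ → P → ℝ} {g m : P → ℝ} (h : Cv F g) (hm : Continuous m) {C : ℝ} (c0 : 0 ≤ C)
    (hC : ∀ p, |m p| ≤ C) : Cv (fun n p => m p * F n p) fun p => m p * g p := by
  have e := Eventually.of_forall (f := ae (volume : Measure P)) hC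
  refine ⟨fun n => (h.m n).bmul hm.aestronglyMeasurable e, h.mg.bmul hm.aestronglyMeasurable e,
    squeeze_zero (fun _ => nm_nonneg _) (fun n => ?_) (by simpa using h.lim.const_mul C)⟩
  exact le_of_eq_of_le (congrArg nm (funext fun p => by ring)) (nm_bmul (h.mg.sub (h.m n)) c0 e)

theorem cv_sq {F : ℕ → P → ℝ} {g : P → ℝ} (h : Cv F g) :
    Tendsto (fun n => ∫ x, F n x ^ 2) atTop (𝓝 (∫ x, g x ^ 2)) := by
  simp only [← nm_sq]
  refine (tendsto_iff_dist_tendsto_zero.2 (squeeze_zero (fun _ => dist_nonneg) (fun n => ?_)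
    h.lim)).pow 2
  have a := nm_add_le (h.mg.sub (h.m n)) (h.m n)
  have b := nm_sub_le h.mg (h.mg.sub (h.m n))
  simp only [sub_add_cancel, sub_sub_cancel] at a b
  rw [Real.dist_eq, abs_le]
  constructor <;> linarith

/-- Bounded approximation at every time. -/
structure Ap (J : Set ℝ) (u : ℕ → ST → ℝ) (v : ST → ℝ) : Prop where
  cv : ∀ t, Cv (fun n x => u n (t, x)) fun x => v (t, x)
  bd : ∃ C, ∀ n t, nm (fun x => u n (t, x)) ≤ C
  off : ∀ n t, t ∉ J → ∀ x, u n (t, x) = 0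

variable {J : Set ℝ} {u u' : ℕ → ST → ℝ} {v v' : ST → ℝ}

theorem Ap.add (h : Ap J u v) (h' : Ap J u' v') :
    Ap J (fun n z => u n z + u' n z) fun z => v z + v' z := by
  obtain ⟨C, hC⟩ := h.bd
  obtain ⟨C', hC'⟩ := h'.bd
  exact ⟨fun t => (h.cv t).add (h'.cv t), ⟨C + C', fun n t =>
    (nm_add_le ((h.cv t).m n) ((h'.cv t).m n)).trans (add_le_add (hC n t) (hC' n t))⟩,
    fun n t ht x => by rw [h.off n t ht, h'.off n t ht, add_zero]⟩

theorem Ap.congr (h : Ap J u v) (hu : ∀ n z, u n z = u' n z) (hv : ∀ z, v z = v' z) :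
    Ap J u' v' := by
  rw [← funext hv, ← funext fun n => funext (hu n)]
  exact h

theorem Ap.lim (h : Ap J u v) (hJ : IsCompact J) (hi : ∀ n, Integrable fun z => u n z ^ 2) :
    Integrable (fun t => ∫ x, v (t, x) ^ 2) ∧
      Tendsto (fun n => ∫ z, u n z ^ 2) atTop (𝓝 (∫ t, ∫ x, v (t, x) ^ 2)) := by
  obtain ⟨C, hC⟩ := h.bd
  have hi' : ∀ n, Integrable (fun z => u n z ^ 2)
    ((volume : Measure ℝ).prod (volume : Measure P)) := hi
  have m : ∀ n, AEStronglyMeasurable (fun t => ∫ x, u n (t, x) ^ 2) volume :=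
    fun n => (hi' n).integral_prod_left.1
  have ib : Integrable (J.indicator fun _ => C ^ 2) :=
    (integrable_indicator_iff hJ.measurableSet).2 (integrableOn_const hJ.measure_lt_top.ne)
  have b : ∀ n t, ‖∫ x, u n (t, x) ^ 2‖ ≤ J.indicator (fun _ => C ^ 2) t := fun n t => by
    by_cases ht : t ∈ J
    · rw [indicator_of_mem ht, ← nm_sq, Real.norm_of_nonneg (sq_nonneg _)]
      exact pow_le_pow_left₀ (nm_nonneg _) (hC n t) 2
    · simp [indicator_of_notMem ht, h.off n t ht]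
  have l := fun t => cv_sq (h.cv t)
  refine ⟨ib.mono' (aestronglyMeasurable_of_tendsto_ae atTop m (Eventually.of_forall l))
    (Eventually.of_forall fun t => le_of_tendsto' (l t).norm fun n => b n t), ?_⟩
  refine (tendsto_integral_of_dominated_convergence _ m ib
    (fun n => Eventually.of_forall (b n)) (Eventually.of_forall l)).congr fun n => ?_
  exact (integral_prod _ (hi' n)).symm

theorem ap_mol (h2 : Mol2S) {k : ℕ → P → ℝ} {e : ℕ → ℝ} (hk : ∀ n, Ker (e n) (k n))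
    (he : Tendsto e atTop (𝓝 0)) {χ a : ST → ℝ} (hc : HasCompactSupport χ) (ha : Continuous a)
    (h0 : ∀ z, z ∉ tsupport χ → a z = 0) {G : ℝ → P → ℝ} {M : ℝ}
    (hG : ∀ t ∈ Prod.fst '' tsupport χ, M2 (G t) ∧ nm (G t) ≤ M) :
    Ap (Prod.fst '' tsupport χ) (fun n z => a z * mol (k n) (G z.1) z.2)
      fun z => a z * G z.1 z.2 := by
  obtain ⟨C, hC⟩ := ha.bounded_above_of_compact_support (HasCompactSupport.intro hc h0)
  have c0 := (norm_nonneg _).trans (hC 0)
  have z : ∀ t, t ∉ Prod.fst '' tsupport χ → ∀ x, a (t, x) = 0 :=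
    fun t ht x => h0 _ fun h => ht ⟨_, h, rfl⟩
  refine ⟨fun t => ?_, ⟨C * max M 0, fun n t => ?_⟩, fun n t ht x => by rw [z t ht, zero_mul]⟩
  · by_cases ht : t ∈ Prod.fst '' tsupport χ
    · exact bmul (cv_mol h2 hk he (hG t ht).1) (m := fun x => a (t, x)) (by fun_prop) c0
        fun x => hC _
    · simp only [z t ht, zero_mul]
      exact ⟨fun _ => M2.zero, M2.zero, by simp [nm_zero]⟩
  · by_cases ht : t ∈ Prod.fst '' tsupport χ
    · have := h2.2.1 _ _ _ (hk n) (hG t ht).1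
      exact (nm_bmul (m := fun x => a (t, x)) this.1 c0 (Eventually.of_forall fun x => hC _)).trans
        (mul_le_mul_of_nonneg_left (this.2.trans (le_max_of_le_left (hG t ht).2)) c0)
    · simp only [z t ht, zero_mul, nm_zero]
      positivity

theorem smd {f : ST → ℝ} (h : ContDiff ℝ ∞ f) (e : ST) : ContDiff ℝ ∞ (pd e f) :=
  contDiff_infty.2 fun n => contDiff_pd e (contDiff_infty.1 h (n + 1))

theorem dif {f : ST → ℝ} (h : ContDiff ℝ ∞ f) (z : ST) : DifferentiableAt ℝ f z :=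
  h.differentiable (by simp) z

theorem Lh_mul {f g : ST → ℝ} (hf : ContDiff ℝ ∞ f) (hg : ContDiff ℝ ∞ g) (z : ST) :
    Lh (fun z => f z * g z) z = Lh f z * g z + 2 * (pd e1 f z * pd e1 g z + pd e2 f z * pd e2 g z)
      + f z * Lh g z := by
  have a : ∀ e, pd e (fun z => f z * g z) = fun z => pd e f z * g z + f z * pd e g z :=
    fun e => funext fun z => pd_mul e (dif hf z) (dif hg z)
  have b : ∀ e, pd e (pd e fun z => f z * g z) z = pd e (pd e f) z * g z + pd e f z * pd e g z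
      + (pd e f z * pd e g z + f z * pd e (pd e g) z) := fun e => by
    rw [a, pd_add e (dif ((smd hf e).mul hg) z) (dif (hf.mul (smd hg e)) z),
      pd_mul e (dif (smd hf e) z) (dif hg z), pd_mul e (dif hf z) (dif (smd hg e) z)]
  simp only [Lh, b]
  rw [a]
  ring

end Rc1

open Rc1 Dens in
theorem rowRc1 : OfRc1 := by
  intro h1 h2 c s τ β t₀ K M χ I N W D F b hs hτ hN hχ hc hsup hW hD hw hF hb hR
  have hJ : IsCompact (Prod.fst '' tsupport χ) := hc.isCompact.image continuous_fst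
  obtain ⟨δ, δ0, hδ⟩ := (hc.isCompact.image continuous_snd).exists_thickening_subset_open hN
    (by rintro _ ⟨z, hz, rfl⟩; exact (hsup z hz).2.1)
  obtain ⟨k, e, hk, he, e1', -⟩ := kers h2 δ0
  obtain ⟨E, hE⟩ : ∃ E : ST → ℝ, ∀ z, E z = Real.exp (τ * wt c s β t₀ z) := ⟨_, fun _ => rfl⟩
  have cE : Continuous E := by rw [funext hE]; fun_prop
  obtain ⟨m, hm⟩ : ∃ m : ℕ → ST → ℝ, ∀ n, m n = fun z : ST => mol (k n) (W z.1) z.2 :=
    ⟨_, fun _ => rfl⟩
  have kt : ∀ n, Test univ (k n) := fun n => (hk n).test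
  have sm : ∀ n, ContDiff ℝ ∞ (m n) := fun n => hm n ▸ ((h1 _ (kt n)).2 W hW).1
  have d1 : ∀ n i z, pd ((0, ee i) : ST) (m n) z = mol (k n) (D i z.1) z.2 := fun n i z => by
    rw [hm, ((h1 _ (kt n)).2 W hW).2.2]
    exact mol_wd (kt n) (hw z.1 i) fun _ _ => mem_univ _
  have d2 : ∀ n i z, pd ((0, ee i) : ST) (pd ((0, ee i) : ST) (m n)) z =
      mol (pd (ee i) (k n)) (D i z.1) z.2 := fun n i z => by
    rw [hm, ((h1 _ (kt n)).2 W hW).2.2, ((h1 _ ((kt n).pd _)).2 W hW).2.2]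
    exact mol_wd ((kt n).pd _) (hw z.1 i) fun _ _ => mem_univ _
  have d3 : ∀ n z, χ z * Lh (m n) z = -χ z * mol (k n) (F z.1) z.2 := fun n z => by
    by_cases hz : z ∈ tsupport χ
    · have q := (hF z.1 (hsup z hz).1).2.2 _ (((kt n).refl z.2).mono fun y hy => hδ
        (Metric.mem_thickening_iff.2 ⟨z.2, ⟨z, hz, rfl⟩, by
          rw [dist_comm, dist_eq_norm]
          exact (mem_ball_zero_iff.1 ((hk n).1.2.2 hy)).trans_le (e1' n)⟩))
      simp only [pd_refl (kt n).1, mul_neg, integral_neg, Fin.sum_univ_two] at q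
      have q0 : pd e0 (m n) z = mol (k n) (deriv W z.1 : L) z.2 := by
        rw [hm, ((h1 _ (kt n)).2 W hW).2.1]
      have q1 : pd e1 (pd e1 (m n)) z = _ := d2 n 0 z
      have q2 : pd e2 (pd e2 (m n)) z = _ := d2 n 1 z
      rw [Lh, q0, q1, q2]
      simp only [mol]
      rw [← q]
      ring
    · rw [image_eq_zero_of_notMem_tsupport hz, neg_zero, zero_mul, zero_mul]
  have bL : ∀ G : ℝ → L, Continuous G → ∃ M', ∀ t ∈ Prod.fst '' tsupport χ,
      M2 (G t) ∧ nm (G t) ≤ M' := fun G hG => by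
    obtain ⟨C, hC⟩ := hJ.exists_bound_of_continuousOn hG.continuousOn
    exact ⟨C, fun t ht => ⟨M2.coe _, nm_coe (G t) ▸ hC t ht⟩⟩
  obtain ⟨MW, bW⟩ := bL W hW.continuous
  choose MD bD using fun i => bL (D i) (hD i)
  have bF : ∀ t ∈ Prod.fst '' tsupport χ, M2 (F t) ∧ nm (F t) ≤ M := by
    rintro _ ⟨z, hz, rfl⟩
    exact ⟨(hF _ (hsup z hz).1).1, (hF _ (hsup z hz).1).2.1⟩
  have χ2 : ContDiff ℝ (2 : ℕ) χ := contDiff_infty.1 hχ 2
  have cχ := hχ.continuous
  have cd : ∀ i, Continuous (pd ((0, ee i) : ST) χ) := fun i => (smd hχ _).continuous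
  have cLh := ct_Lh χ2
  have A : ∀ {a : ST → ℝ}, Continuous a → (∀ z, z ∉ tsupport χ → a z = 0) →
      ∀ {G : ℝ → P → ℝ} {M : ℝ}, (∀ t ∈ Prod.fst '' tsupport χ, M2 (G t) ∧ nm (G t) ≤ M) →
      Ap (Prod.fst '' tsupport χ) (fun n z => E z * a z * mol (k n) (G z.1) z.2)
        fun z => E z * a z * G z.1 z.2 := fun ha h0 _ _ hG =>
    ap_mol h2 hk he hc (cE.mul ha) (fun z hz => by rw [Pi.mul_apply, h0 z hz, mul_zero]) hG
  have z0 : ∀ z, z ∉ tsupport χ → χ z = 0 := fun z hz => (zero_off_supp hz).1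
  have z1 : ∀ i z, z ∉ tsupport χ → pd ((0, ee i) : ST) χ z = 0 :=
    fun i z hz => (zero_off_supp hz).2.1 _
  obtain ⟨f, hf⟩ : ∃ f : ℕ → ST → ℝ, ∀ n, f n = fun z => χ z * m n z := ⟨_, fun _ => rfl⟩
  have sf : ∀ n, ContDiff ℝ ∞ (f n) := fun n => hf n ▸ hχ.mul (sm n)
  have cf : ∀ n, HasCompactSupport (f n) := fun n => hf n ▸ hc.mul_right
  have tf : ∀ n, tsupport (f n) ⊆ tsupport χ := fun n => hf n ▸ tsupport_mul_subset_left
  have A0 : Ap _ (fun n z => E z * f n z) fun z => E z * (χ z * W z.1 z.2) :=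
    (A cχ z0 bW).congr (fun n z => by rw [hf, hm, mul_assoc]) fun z => mul_assoc _ _ _
  have A1 : ∀ i, Ap _ (fun n z => E z * pd ((0, ee i) : ST) (f n) z)
      fun z => E z * (χ z * D i z.1 z.2 + pd ((0, ee i) : ST) χ z * W z.1 z.2) := fun i =>
    ((A cχ z0 (bD i)).add (A (cd i) (z1 i) bW)).congr (fun n z => by
      rw [hf, pd_mul _ (dif hχ z) (dif (sm n) z), d1, hm]; ring) fun z => by ring
  have A2 : Ap _ (fun n z => E z * Lh (f n) z) fun z => E z * (Lh χ z * W z.1 z.2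
      + 2 * ∑ i, pd ((0, ee i) : ST) χ z * D i z.1 z.2 - χ z * F z.1 z.2) :=
    (((A cLh (fun z hz => Lh_zero hz) bW).add
      ((A (a := fun z => 2 * pd ((0, ee 0) : ST) χ z) (continuous_const.mul (cd 0))
        (fun z hz => by rw [z1 0 z hz, mul_zero]) (bD 0)).add
      (A (a := fun z => 2 * pd ((0, ee 1) : ST) χ z) (continuous_const.mul (cd 1))
        (fun z hz => by rw [z1 1 z hz, mul_zero]) (bD 1)))).add
      (A (a := fun z => -χ z) cχ.neg (fun z hz => by rw [z0 z hz, neg_zero]) bF)).congr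
      (fun n z => by
        have q1 : pd e1 (m n) z = _ := d1 n 0 z
        have q2 : pd e2 (m n) z = _ := d1 n 1 z
        have q3 : m n z = mol (k n) (W z.1) z.2 := by rw [hm]
        have q4 : ((0, ee 0) : ST) = e1 := rfl
        have q5 : ((0, ee 1) : ST) = e2 := rfl
        rw [hf, Lh_mul hχ (sm n), d3, q1, q2, q3, q4, q5]
        ring) fun z => by rw [Fin.sum_univ_two]; ring
  have i0 : ∀ n, Integrable fun z => (E z * f n z) ^ 2 := fun n =>
    integrable_of_supp (cf n) ((cE.mul (sf n).continuous).pow 2) fun z hz => by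
      rw [(zero_off_supp hz).1]; ring
  have i1 : ∀ i n, Integrable fun z => (E z * pd ((0, ee i) : ST) (f n) z) ^ 2 := fun i n =>
    integrable_of_supp (cf n) ((cE.mul (smd (sf n) _).continuous).pow 2) fun z hz => by
      rw [(zero_off_supp hz).2.1]; ring
  have i2 : ∀ n, Integrable fun z => (E z * Lh (f n) z) ^ 2 := fun n =>
    integrable_of_supp (cf n) ((cE.mul (ct_Lh (contDiff_infty.1 (sf n) 2))).pow 2) fun z hz => by
      rw [Lh_zero hz]; ring
  obtain ⟨j0, l0⟩ := A0.lim hJ i0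
  obtain ⟨j1, l1⟩ := (A1 0).lim hJ (i1 0)
  obtain ⟨j2, l2⟩ := (A1 1).lim hJ (i1 1)
  obtain ⟨j3, l3⟩ := A2.lim hJ i2
  obtain ⟨κ, hκ⟩ : ∃ κ, κ = 4 * τ ^ 3 * s ^ 4 - 64 * τ - 2 * τ ^ 2 * K := ⟨_, rfl⟩
  have sp : ∀ {Ω : Type} [MeasurableSpace Ω] {μ : Measure Ω} {x y z : Ω → ℝ}, Integrable x μ →
      Integrable y μ → Integrable z μ → ∫ p, (τ * s / 4 * (x p + y p) + κ * z p) ∂μ =
        τ * s / 4 * (∫ p, x p ∂μ + ∫ p, y p ∂μ) + κ * ∫ p, z p ∂μ := fun hx hy hz => by
    rw [← integral_add hx hy, ← integral_const_mul, ← integral_const_mul]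
    exact integral_add ((hx.add hy).const_mul _) (hz.const_mul _)
  have eL : cL c s τ β t₀ K χ W D = fun t => τ * s / 4 *
      ((∫ x, (E (t, x) * (χ (t, x) * D 0 t x + pd ((0, ee 0) : ST) χ (t, x) * W t x)) ^ 2) +
        ∫ x, (E (t, x) * (χ (t, x) * D 1 t x + pd ((0, ee 1) : ST) χ (t, x) * W t x)) ^ 2)
      + κ * ∫ x, (E (t, x) * (χ (t, x) * W t x)) ^ 2 := funext fun t => by
    rw [← sp ((A1 0).cv t).mg.int_sq ((A1 1).cv t).mg.int_sq (A0.cv t).mg.int_sq, cL]
    refine integral_congr_ae (Eventually.of_forall fun x => ?_)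
    simp only [Fin.sum_univ_two, ← hE, ← hκ]
    ring
  have eR : cR c s τ β t₀ χ W D F = fun t => 2 * ∫ x, (E (t, x) * (Lh χ (t, x) * W t x
      + 2 * ∑ i, pd ((0, ee i) : ST) χ (t, x) * D i t x - χ (t, x) * F t x)) ^ 2 :=
    funext fun t => by
      rw [← integral_const_mul, cR]
      refine integral_congr_ae (Eventually.of_forall fun x => ?_)
      simp only [← hE]
      ring
  rw [eR] at hR
  rw [eL]
  refine ⟨((j1.add j2).const_mul _).add (j0.const_mul _),
    le_trans ?_ (integral_mono (j3.const_mul 2) hb hR)⟩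
  rw [sp j1 j2 j0, integral_const_mul]
  refine le_of_tendsto_of_tendsto' (((l1.add l2).const_mul _).add (l0.const_mul _))
    (l3.const_mul 2) fun n => ?_
  have := carleman_f c (β := β) (t := t₀) (K := K) hs hτ (contDiff_infty.1 (sf n) 2) (cf n)
    fun z hz => (hsup z (tf n hz)).2.2
  rw [← sp (i1 0 n) (i1 1 n) (i0 n), ← integral_const_mul]
  refine le_of_eq_of_le (integral_congr_ae (Eventually.of_forall fun z => ?_))
    (this.trans_eq (integral_congr_ae (Eventually.of_forall fun z => ?_)))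
  · have q4 : ((0, ee 0) : ST) = e1 := rfl
    have q5 : ((0, ee 1) : ST) = e2 := rfl
    simp only [← hE, ← hκ, gr, q4, q5]
    ring
  · simp only [← hE]
    ring

end Pool.Agent.MP_ed9623_an.H77
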